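import Pool.Agent.Lib.MP_6f1701_an.PartC

/-!
A holomorphic function `f` on the unit disc with nowhere vanishing derivative, with asymptotic
values at all points of the unit circle except possibly `1` and `-1` (so `f` is in MacLane's class)
and with an arc tract.
-/

open Filter Topology

namespace Pool.Agent.Results.MP_6f1701_an.ArcTract

/-- `f` has an asymptotic value in `ℂ ∪ {∞}` at `ζ`: there is a curve `σ : [0,1) → 𝔻` with
`σ(t) → ζ` and `f(σ(t)) → a` as `t → 1`. -/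
def HasAsymptoticValue (f : ℂ → ℂ) (ζ : ℂ) : Prop :=
  ∃ (a : OnePoint ℂ) (σ : ℝ → ℂ), ContinuousOn σ (Set.Ico 0 1) ∧
    (∀ t ∈ Set.Ico (0 : ℝ) 1, σ t ∈ Metric.ball (0 : ℂ) 1) ∧
    Tendsto σ (𝓝[<] (1 : ℝ)) (𝓝 ζ) ∧
    Tendsto (fun t => (f (σ t) : OnePoint ℂ)) (𝓝[<] (1 : ℝ)) (𝓝 a)

/-- The MacLane class: non-constant holomorphic functions on the unit disc which have asymptotic
values at a dense set of points of the unit circle. -/
structure MacLane (f : ℂ → ℂ) : Prop where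
  holomorphic : DifferentiableOn ℂ f (Metric.ball (0 : ℂ) 1)
  nonconstant : ∃ z ∈ Metric.ball (0 : ℂ) 1, ∃ w ∈ Metric.ball (0 : ℂ) 1, f z ≠ f w
  dense : Metric.sphere (0 : ℂ) 1 ⊆
    closure {ζ | ζ ∈ Metric.sphere (0 : ℂ) 1 ∧ HasAsymptoticValue f ζ}

/-- An arc: a homeomorphic image of the interval `[0,1]`. -/
def IsArc (γ : Set ℂ) : Prop := Nonempty (unitInterval ≃ₜ γ)

/-- `f` has an arc tract with end the set `γ`: there are arcs `γ_n` in the disc with `γ_n → γ` in the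
Hausdorff distance and `min {|f(z)| : z ∈ γ_n} → ∞`. -/
def ArcTractWithEnd (f : ℂ → ℂ) (γ : Set ℂ) : Prop :=
  ∃ Γ : ℕ → Set ℂ, (∀ n, IsArc (Γ n) ∧ Γ n ⊆ Metric.ball (0 : ℂ) 1) ∧
    Tendsto (fun n => Metric.hausdorffDist (Γ n) γ) atTop (𝓝 0) ∧
    Tendsto (fun n => sInf ((fun z => ‖f z‖) '' Γ n)) atTop atTop

/-- The closed arc `{e^{iθ} : a ≤ θ ≤ b}` of the unit circle. -/
def circleArc (a b : ℝ) : Set ℂ := (fun θ : ℝ => Complex.exp ((θ : ℂ) * Complex.I)) '' Set.Icc a b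

theorem result : ∃ f : ℂ → ℂ, MacLane f ∧
    (∃ a b : ℝ, a < b ∧ b < a + 2 * Real.pi ∧ ArcTractWithEnd f (circleArc a b)) ∧
    (∀ z ∈ Metric.ball (0 : ℂ) 1, deriv f z ≠ 0) ∧
    (∀ ζ ∈ Metric.sphere (0 : ℂ) 1, ζ ≠ 1 → ζ ≠ -1 → HasAsymptoticValue f ζ) := by
  have hasym : ∀ ζ ∈ Metric.sphere (0 : ℂ) 1, ζ ≠ 1 → ζ ≠ -1 →
      HasAsymptoticValue Pool.Agent.MP_6f1701_an.fd ζ := by
    intro ζ h0 h1 h2
    obtain ⟨γ, hγ, hb, hl, hor⟩ :=
      Pool.Agent.MP_6f1701_an.asym_point (by simpa using h0) h1 h2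
    rcases hor with ⟨w, hw⟩ | hw
    · exact ⟨w, γ, hγ, hb, hl, (OnePoint.continuous_coe.tendsto w).comp hw⟩
    · refine ⟨OnePoint.infty, γ, hγ, hb, hl, ?_⟩
      refine OnePoint.tendsto_coe_infty.comp ?_
      rw [Filter.coclosedCompact_eq_cocompact, ← Metric.cobounded_eq_cocompact,
        ← tendsto_norm_atTop_iff_cobounded]
      exact hw
  refine ⟨Pool.Agent.MP_6f1701_an.fd, ⟨?_, ?_, ?_⟩, ?_, ?_, hasym⟩
  · intro w hw
    exact (Pool.Agent.MP_6f1701_an.fd_deriv hw).differentiableAt.differentiableWithinAt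
  · by_contra hcon
    push Not at hcon
    apply Pool.Agent.MP_6f1701_an.fd_nonconst
    exact ⟨Pool.Agent.MP_6f1701_an.fd 0, fun z hz => hcon z hz 0 (by simp)⟩
  · intro ζ₀ hζ₀
    rw [Metric.mem_closure_iff]
    intro ε hε
    have h0 : ‖ζ₀‖ = 1 := by simpa using hζ₀
    obtain ⟨ζ, h1, h2, h3, h4⟩ := Pool.Agent.MP_6f1701_an.exists_near h0 hε
    exact ⟨ζ, ⟨by simpa using h1, hasym ζ (by simpa using h1) h2 h3⟩, by rwa [dist_comm]⟩
  · obtain ⟨a, b, hab, hb, g, hg, hH, hM⟩ := Pool.Agent.MP_6f1701_an.arc_tract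
    refine ⟨a, b, hab, hb, fun n => g n '' Set.Icc 0 1, fun n => ⟨?_, (hg n).2.2⟩, hH, ?_⟩
    · obtain ⟨hc, hi, -⟩ := hg n
      let G : unitInterval → g n '' Set.Icc 0 1 := fun t => ⟨g n t, ⟨t, t.2, rfl⟩⟩
      have hG : Continuous G := (continuousOn_iff_continuous_domRestrict.1 hc).subtype_mk _
      have hbij : Function.Bijective G := by
        refine ⟨fun s t hst => Subtype.ext (hi s.2 t.2 (congrArg Subtype.val hst)), ?_⟩
        rintro ⟨_, t, ht, rfl⟩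
        exact ⟨⟨t, ht⟩, rfl⟩
      exact ⟨Continuous.homeoOfEquivCompactToT2 (f := Equiv.ofBijective G hbij) hG⟩
    · rw [tendsto_atTop]
      intro M
      filter_upwards [hM M] with n hn
      refine le_csInf ?_ ?_
      · exact ⟨_, _, ⟨0, by simp, rfl⟩, rfl⟩
      · rintro _ ⟨_, ⟨t, ht, rfl⟩, rfl⟩
        exact hn t ht
  · intro w hw
    exact Pool.Agent.MP_6f1701_an.fd_deriv_ne hw

end Pool.Agent.Results.MP_6f1701_an.ArcTract
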